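import Pool.Agent.Helper54.HW.Final3

/-!
# MP_143e28_ag: curves with an indecomposable tame map of growing degree to the line, and the curves `y ^ q - y = f (x)`
-/

set_option autoImplicit false

namespace Pool.Agent.Results.MP_143e28_ag.GrowingDegrees

open Polynomial Pool.Agent.Helper54.HW

/-- Let `k` be algebraically closed of characteristic `p > 0`, and `N g ≥ 3` natural numbers with `9 (N g) ^ 3 ≤ g` for all large `g`.
`mu g = muGrow k p N g` is the supremum (in `ℕ ∪ {∞}`) of the numbers of automorphisms of the curves of genus `g` over `k` which are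
Galois covers of the line of prime degree `n ≤ N g`, or have a tame indecomposable map of degree `n ≤ N g`, `n` not divisible by
`p`, to the line, or are curves `y ^ q - y = f (x)` with `q > 1` any power of `p`.  Let `lowG p g` be `8 g`, and `4 g + 4` if `p = 2`.
Then `mu g ≥ lowG p g` for all `g ≥ 2`, `mu g = lowG p g` for `g = p ^ E + p - 1` (`8 ^ E + 2 ^ E` if `p = 2`) with `E` large, and a
polynomial `M` satisfies `M g ≤ mu g` for all `g ≥ 2` and `M g = mu g` for infinitely many `g ≥ 2` iff `M = 8 X` (`4 X + 4` if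
`p = 2`). -/
theorem result.{u} (p : ℕ) [Fact p.Prime] (k : Type u) [Field k] [IsAlgClosed k]
    [CharP k p] (N : ℕ → ℕ) (hN3 : ∀ g, 2 ≤ g → 3 ≤ N g)
    (hN : ∀ᶠ g in Filter.atTop, 9 * N g ^ 3 ≤ g) :
    (∀ g : ℕ, 2 ≤ g → ((lowG p g : ℕ) : ℕ∞) ≤ muGrow k p N g) ∧
    (∃ E₀ : ℕ, ∀ E : ℕ, E₀ ≤ E → muGrow k p N (genG p E) = ((lowG p (genG p E) : ℕ) : ℕ∞)) ∧
    ∀ M : ℚ[X], ((∀ g : ℕ, 2 ≤ g → ∀ m : ℕ, muGrow k p N g = m → M.eval (g : ℚ) ≤ m) ∧
      {g : ℕ | 2 ≤ g ∧ ∃ m : ℕ, muGrow k p N g = m ∧ M.eval (g : ℚ) = m}.Infinite) ↔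
    M = if p = 2 then C 4 * X + C 4 else C 8 * X := by
  refine ⟨fun g hg => lowerA p k N hg (hN3 g hg), ?_, fun M => mainA p k N hN3 hN M⟩
  obtain ⟨E₀, -, h⟩ := exactA p k N hN3 hN
  exact ⟨E₀, h⟩

end Pool.Agent.Results.MP_143e28_ag.GrowingDegrees
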