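import Pool.Agent.Helper28.HN.Final3

/-!
# MP_143e28_ag: curves with an indecomposable tame map of bounded degree to the line, and curves `y ^ q - y = f (x)`, odd characteristic
-/

set_option autoImplicit false

namespace Pool.Agent.Results.MP_143e28_ag.IndecomposableMaps

open Polynomial Pool.Agent.Helper28.HN

/-- Let `k` be algebraically closed of odd characteristic `p`, `2 ∈ S` and `N` a natural number.  `mu g = muPrq k p S N g` is the
supremum (in `ℕ ∪ {∞}`) of the numbers of automorphisms of the curves of genus `g` over `k` which are Galois covers of the line of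
prime degree `n ∈ S`, or have a tame indecomposable map of degree `n ∈ S`, `n ≤ N`, `n` not divisible by `p`, to the line, or are
curves `y ^ q - y = f (x)`, `q > 1` a power of `p`.  Then `mu g ≥ 8 g` for all `g ≥ 2`, `mu g = 8 g` for infinitely many primes `g`,
and a polynomial `M` satisfies `M g ≤ mu g` for all `g ≥ 2` and `M g = mu g` for infinitely many `g ≥ 2` iff `M = 8 X`. -/
theorem result.{u} (p : ℕ) [Fact p.Prime] (hp : p ≠ 2) (k : Type u) [Field k] [IsAlgClosed k]
    [CharP k p] (S : Set ℕ) (hS : 2 ∈ S) (N : ℕ) :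
    (∀ g : ℕ, 2 ≤ g → ((8 * g : ℕ) : ℕ∞) ≤ muPrq k p S N g) ∧
    {g : ℕ | g.Prime ∧ muPrq k p S N g = ((8 * g : ℕ) : ℕ∞)}.Infinite ∧
    ∀ M : ℚ[X], ((∀ g : ℕ, 2 ≤ g → ∀ m : ℕ, muPrq k p S N g = m → M.eval (g : ℚ) ≤ m) ∧
      {g : ℕ | 2 ≤ g ∧ ∃ m : ℕ, muPrq k p S N g = m ∧ M.eval (g : ℚ) = m}.Infinite) ↔
    M = C 8 * X :=
  ⟨fun _ hg => lower_prq p hp k hg S hS N,
    (inf_specialD p Fact.out hp N).mono fun _ hg => ⟨hg.1, exact_prq p hp k hg S hS⟩,
    fun M => main_prq p hp k S hS N M⟩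

end Pool.Agent.Results.MP_143e28_ag.IndecomposableMaps
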