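import Pool.Agent.Helper22.HM.Fin2

/-!
# MP_143e28_ag: characteristic 2, a class of curves for which the polynomial is `4 T + 4`
-/

set_option autoImplicit false

namespace Pool.Agent.Results.MP_143e28_ag.IndecomposableTwo

open Polynomial Pool.Agent.Helper22.HM

/-- Let `k` be algebraically closed of characteristic 2, `2, 3 ∈ S`, `N` a natural number, and `mu g = muExtQ k 2 S N g` the
supremum (in `ℕ ∪ {∞}`) of the numbers of automorphisms of the curves of genus `g` over `k` which are Galois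
covers of the line of prime degree `n ∈ S`, or have a tame indecomposable map of odd degree `n ∈ S`, `n ≤ N`, to
the line, or are curves `y ^ q - y = f (x)` with `q > 1` a power of 2 and all pole orders of `f` odd.  It is `≥ 4 g + 4` for all `g ≥ 2`,
with equality for `g = 4 l` for infinitely many primes `l` (the second clause); a polynomial `M` is a lower bound for all
`g` and equal for infinitely many `g` iff `M = 4 X + 4`. -/
theorem result.{u} (k : Type u) [Field k] [IsAlgClosed k] [CharP k 2] (S : Set ℕ) (hS : 2 ∈ S)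
    (hS3 : 3 ∈ S) (N : ℕ) :
    (∀ g : ℕ, 2 ≤ g → ((4 * g + 4 : ℕ) : ℕ∞) ≤ muExtQ k 2 S N g) ∧
    (∀ l : ℕ, l.Prime → l % 4 = 1 → l % 3 = 1 → l % 5 = 1 → 10000 < l →
      N ^ 2 * (1 + 3 * (2 * N + 8) + 2 * (2 * N + 8) ^ 2) < 4 * l →
      (∀ n : ℕ, 2 ≤ n → n ≤ N → ∀ e v : ℕ, v < n → 2 ^ e ∣ 2 * (4 * l) + 2 * n - 2 - v →
        2 ^ e ≤ 2 * N + 8) →
      muExtQ k 2 S N (4 * l) = ((4 * (4 * l) + 4 : ℕ) : ℕ∞)) ∧
    ∀ M : ℚ[X], ((∀ g : ℕ, 2 ≤ g → ∀ m : ℕ, muExtQ k 2 S N g = m → M.eval (g : ℚ) ≤ m) ∧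
      {g : ℕ | 2 ≤ g ∧ ∃ m : ℕ, muExtQ k 2 S N g = m ∧ M.eval (g : ℚ) = m}.Infinite) ↔
      M = C 4 * X + C 4 :=
  ⟨fun _ hg => lowQM k hg S hS hS3 N,
    fun _ h1 h2 h3 h4 h5 h6 h7 => exactQM k ⟨⟨h1, h2, h3, h4, h5⟩, h6, h7⟩ S hS hS3,
    fun M => mainQM k S hS hS3 N M⟩

end Pool.Agent.Results.MP_143e28_ag.IndecomposableTwo
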