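import Pool.Agent.Helper22.HL.Obs

/-!
# MP_143e28_ag: characteristic 2, a lower bound for the number of automorphisms in every genus: `4 T + 2` is not the polynomial
-/

set_option autoImplicit false

namespace Pool.Agent.Results.MP_143e28_ag.ManyAutomorphismsTwo

open Pool.Agent.Helper22.HL

/-- Let `k` be algebraically closed of characteristic 2, and `muTri k 2 g` the supremum (in `ℕ ∪ {∞}`) of the numbers
of automorphisms of the curves of genus `g` over `k` of three explicit types (Artin-Schreier covers of the line,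
totally ramified cyclic covers of the line of odd degree, curves `y ^ q - y = f (x)` with `q` a power of 2).  It is `≥ 4 g + 4` for every
`g ≥ 2`.  If it is `≤ 4 g + B` (for instance if the maximum over all curves of genus `g` is), then no odd divisor `a > B / 2` of `g`
is prime to `2 g / a + 1`, and, if `B < 2 g`, `g` is even, not divisible by 3 and not a power of 2. -/
theorem result.{u} (k : Type u) [Field k] [IsAlgClosed k] [CharP k 2] (g : ℕ) (hg : 2 ≤ g) :
    ((4 * g + 4 : ℕ) : ℕ∞) ≤ muTri k 2 g ∧
    ∀ B : ℕ, muTri k 2 g ≤ ((4 * g + B : ℕ) : ℕ∞) →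
      (B < 2 * g → Even g ∧ ¬ 3 ∣ g ∧ ∀ e : ℕ, g ≠ 2 ^ e) ∧
      ∀ a : ℕ, Odd a → a ∣ g → B < 2 * a → ¬ Nat.Coprime a (2 * g / a + 1) :=
  ⟨bound4 k hg, fun _ h => obs k hg h⟩

end Pool.Agent.Results.MP_143e28_ag.ManyAutomorphismsTwo
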